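import Pool.Agent.E8helper16.TP.StmA

/-!
# TP-5 (helper16): the lower bound for the truncated singular series
-/

set_option autoImplicit false

namespace Pool.Agent.E8helper69.TP

open Finset
open Pool.Agent.E8helper16.TP
open Pool.Agent.H373R2.T7 (lamz pz Vz)

lemma exp_low {y : ℝ} (h0 : 0 ≤ y) (h1 : y ≤ 1 / 3) : Real.exp (-(y + y ^ 2)) ≤ 1 - y := by
  have h2 := Real.quadratic_le_exp_of_nonneg (show 0 ≤ y + y ^ 2 by positivity)
  rw [Real.exp_neg, inv_le_comm₀ (Real.exp_pos _) (by linarith)]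
  refine le_trans ?_ h2
  rw [inv_le_iff_one_le_mul₀ (by linarith)]
  have h3 : 0 ≤ y ^ 2 := by positivity
  have h4 : 0 ≤ y ^ 3 := by positivity
  nlinarith [mul_nonneg h3 (show 0 ≤ 1 / 3 - y by linarith), mul_nonneg h4 (show 0 ≤ 1 / 3 - y by linarith), mul_nonneg (mul_nonneg h3 h3) (show 0 ≤ 1 / 3 - y by linarith)]

lemma sum_inv_sq (z : ℕ) : ∑ n ∈ Icc 1 z, 1 / (n : ℝ) ^ 2 ≤ 2 := by
  have h : ∀ z : ℕ, 1 ≤ z → ∑ n ∈ Icc 1 z, 1 / (n : ℝ) ^ 2 ≤ 2 - 1 / (z : ℝ) := by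
    intro z hz
    induction z, hz using Nat.le_induction with
    | base => norm_num
    | succ z hz ih =>
      rw [sum_Icc_succ_top (by omega)]
      have hz0 : (0 : ℝ) < z := by exact_mod_cast hz
      have h2 : 1 / (((z + 1 : ℕ) : ℝ)) ^ 2 ≤ 1 / z - 1 / ((z + 1 : ℕ) : ℝ) := by
        push_cast
        rw [div_sub_div _ _ hz0.ne' (by positivity), div_le_div_iff₀ (by positivity) (by positivity)]
        nlinarith
      linarith
  rcases Nat.eq_zero_or_pos z with h0 | h0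
  · rw [h0]; simp
  · have := h z h0
    have h1 : 0 ≤ 1 / (z : ℝ) := by positivity
    linarith

/-- lower bound for the product of the local factors, `b p` being the number of excluded pairs of
classes -/
theorem low_core (b : ℕ → ℕ) (P : Finset ℕ) (z : ℕ) (hP : ∀ p ∈ P, p.Prime ∧ p ∈ Icc 1 z)
    (h1 : ∀ p ∈ P, b p ≤ 6 * p) (h2 : ∀ p ∈ P, b p < p ^ 2) :
    (1 / 324 : ℝ) ^ 18 * Real.exp (-72) ≤
      ∏ p ∈ P, (1 - (b p : ℝ) / (p : ℝ) ^ 2) / (1 - 1 / (p : ℝ)) ^ 6 := by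
  have hfac : ∀ p ∈ P, (if p < 18 then (1 / 324 : ℝ) else Real.exp (-(36 * (1 / (p : ℝ) ^ 2)))) ≤
      (1 - (b p : ℝ) / (p : ℝ) ^ 2) / (1 - 1 / (p : ℝ)) ^ 6 := by
    intro p hp
    have hp2 : (2 : ℝ) ≤ p := by exact_mod_cast (hP p hp).1.two_le
    have hp0 : (0 : ℝ) < p := by linarith
    have hq : 0 < 1 - 1 / (p : ℝ) := by rw [sub_pos, div_lt_one hp0]; linarith
    have hq1 : 1 - 1 / (p : ℝ) ≤ 1 := by
      have : 0 ≤ 1 / (p : ℝ) := by positivity
      linarith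
    rw [le_div_iff₀ (by positivity)]
    split_ifs with h
    · have h3 : (1 - 1 / (p : ℝ)) ^ 6 ≤ 1 := pow_le_one₀ hq.le hq1
      have hp20 : (0 : ℝ) < (p : ℝ) ^ 2 := by positivity
      have h4 : 1 / (p : ℝ) ^ 2 ≤ 1 - (b p : ℝ) / (p : ℝ) ^ 2 := by
        have h5 : ((b p : ℝ) + 1) ≤ (p : ℝ) ^ 2 := by exact_mod_cast h2 p hp
        have h6 : 1 / (p : ℝ) ^ 2 + (b p : ℝ) / (p : ℝ) ^ 2 = (b p + 1) / (p : ℝ) ^ 2 := by ring
        have h7 : (b p + 1) / (p : ℝ) ^ 2 ≤ 1 := by rw [div_le_one hp20]; exact h5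
        linarith
      have h5 : (1 / 324 : ℝ) ≤ 1 / (p : ℝ) ^ 2 := by
        apply one_div_le_one_div_of_le hp20
        have : (p : ℝ) < 18 := by exact_mod_cast h
        nlinarith
      calc (1 / 324 : ℝ) * (1 - 1 / (p : ℝ)) ^ 6 ≤ 1 / 324 * 1 :=
            mul_le_mul_of_nonneg_left h3 (by norm_num)
        _ ≤ _ := by rw [mul_one]; linarith
    · have h3 : (18 : ℝ) ≤ p := by exact_mod_cast (not_lt.1 h)
      have hy : (6 : ℝ) / p ≤ 1 / 3 := by rw [div_le_iff₀ hp0]; linarith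
      have hy0 : 0 ≤ (6 : ℝ) / p := by positivity
      have h4 := exp_low hy0 hy
      have h5 : (1 - 1 / (p : ℝ)) ^ 6 ≤ Real.exp (-((6 : ℝ) / p)) := by
        have h6 : 1 - 1 / (p : ℝ) ≤ Real.exp (-(1 / p)) := by
          have := Real.add_one_le_exp (-(1 / (p : ℝ)))
          linarith
        calc (1 - 1 / (p : ℝ)) ^ 6 ≤ (Real.exp (-(1 / p))) ^ 6 := pow_le_pow_left₀ hq.le h6 6
          _ = Real.exp (-((6 : ℝ) / p)) := by
            rw [← Real.exp_nat_mul]; congr 1; push_cast; ring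
      have h6 : 1 - (6 : ℝ) / p ≤ 1 - (b p : ℝ) / (p : ℝ) ^ 2 := by
        have h7 : (b p : ℝ) ≤ 6 * p := by exact_mod_cast h1 p hp
        have h8 : (b p : ℝ) / (p : ℝ) ^ 2 ≤ 6 / p := by
          rw [div_le_div_iff₀ (by positivity) hp0]
          nlinarith
        linarith
      calc Real.exp (-(36 * (1 / (p : ℝ) ^ 2))) * (1 - 1 / (p : ℝ)) ^ 6
          ≤ Real.exp (-(36 * (1 / (p : ℝ) ^ 2))) * Real.exp (-((6 : ℝ) / p)) :=
            mul_le_mul_of_nonneg_left h5 (Real.exp_pos _).le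
        _ = Real.exp (-((6 : ℝ) / p + ((6 : ℝ) / p) ^ 2)) := by
            rw [← Real.exp_add]; congr 1; ring
        _ ≤ 1 - (6 : ℝ) / p := h4
        _ ≤ _ := h6
  refine le_trans ?_ (prod_le_prod (fun p _ => by split_ifs <;> positivity) hfac)
  rw [prod_ite]
  have hA : (1 / 324 : ℝ) ^ 18 ≤ ∏ _p ∈ P.filter (fun p => p < 18), (1 / 324 : ℝ) := by
    rw [prod_const]
    apply pow_le_pow_of_le_one (by positivity)
    · norm_num
    · have : P.filter (fun p => p < 18) ⊆ range 18 := by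
        intro p hp
        rw [mem_filter] at hp
        exact mem_range.2 hp.2
      exact (card_le_card this).trans (by rw [card_range])
  have hB : Real.exp (-72) ≤
      ∏ p ∈ P.filter (fun p => ¬ p < 18), Real.exp (-(36 * (1 / (p : ℝ) ^ 2))) := by
    rw [← Real.exp_sum]
    apply Real.exp_le_exp.2
    rw [sum_neg_distrib, ← mul_sum]
    have h3 : ∑ p ∈ P.filter (fun p => ¬ p < 18), 1 / (p : ℝ) ^ 2 ≤ ∑ n ∈ Icc 1 z, 1 / (n : ℝ) ^ 2 :=
      sum_le_sum_of_subset_of_nonneg (fun p hp => (hP p (mem_of_mem_filter p hp)).2)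
        (fun _ _ _ => by positivity)
    have h4 := h3.trans (sum_inv_sq z)
    linarith
  exact mul_le_mul hA hB (Real.exp_pos _).le (prod_nonneg fun _ _ => by positivity)

theorem t_LOW : S_LOW := by
  refine ⟨(1 / 324 : ℝ) ^ 18 * Real.exp (-72), by positivity, ?_⟩
  intro Q hQ hb z
  have h := low_core (bad Q) (pz z) z (fun p hp => ?_) (fun p hp => ?_) (fun p hp => ?_)
  · exact h
  · rw [pz, mem_filter] at hp
    exact ⟨hp.2, hp.1⟩
  · rw [pz, mem_filter] at hp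
    exact hQ.few p hp.2
  · rw [pz, mem_filter] at hp
    exact hb p hp.2

end Pool.Agent.E8helper69.TP
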